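import Mathlib

/-!
Binormality is no restriction in the invariant subspace problem for complex symmetric operators, up
to square roots.
-/

set_option autoImplicit false
open scoped InnerProductSpace

namespace Pool.Agent.Results.MP_5a4e18_an.BinormalCover

section definitions

variable {H : Type*} [NormedAddCommGroup H] [InnerProductSpace ℂ H]

/-- `C` is a conjugation -/
def IsConj (C : H → H) : Prop :=
  (∀ x, C (C x) = x) ∧ (∀ x y, C (x + y) = C x + C y) ∧
    (∀ (a : ℂ) x, C (a • x) = (starRingEnd ℂ a) • C x) ∧ ∀ x y, ⟪C x, C y⟫_ℂ = ⟪y, x⟫_ℂ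

/-- `T = C T* C` -/
def CSymm [CompleteSpace H] (C : H → H) (T : H →L[ℂ] H) : Prop :=
  ∀ x, T x = C (ContinuousLinearMap.adjoint T (C x))

/-- `T* T` and `T T*` commute -/
def Binormal [CompleteSpace H] (T : H →L[ℂ] H) : Prop :=
  (ContinuousLinearMap.adjoint T * T) * (T * ContinuousLinearMap.adjoint T) =
    (T * ContinuousLinearMap.adjoint T) * (ContinuousLinearMap.adjoint T * T)

/-- `T` has a nontrivial closed invariant subspace -/
def HasInv (T : H →L[ℂ] H) : Prop :=
  ∃ M : Submodule ℂ H, IsClosed (M : Set H) ∧ M ≠ ⊥ ∧ M ≠ ⊤ ∧ ∀ x ∈ M, T x ∈ M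

/-- `S` has a closed inverse square root: there is a closed injective operator `L` (with graph `G`)
with dense domain and dense range such that `S L` maps the domain of `L` into itself and
`L S L x = x` for all `x` in the domain of `L`. -/
def HasClosedRoot (S : H →L[ℂ] H) : Prop :=
  ∃ G : Submodule ℂ (H × H), IsClosed (G : Set (H × H)) ∧
    (∀ y, ((0 : H), y) ∈ G → y = 0) ∧ (∀ x, (x, (0 : H)) ∈ G → x = 0) ∧
    Dense {x : H | ∃ y, (x, y) ∈ G} ∧ Dense {y : H | ∃ x, (x, y) ∈ G} ∧
    ∀ x y, (x, y) ∈ G → (S y, x) ∈ G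

end definitions

section proofs

variable {K : Type*} [NormedAddCommGroup K] [InnerProductSpace ℂ K]

/-- the cover -/
noncomputable def cov (S : K →L[ℂ] K) : WithLp 2 (K × K) →L[ℂ] WithLp 2 (K × K) :=
  (WithLp.prodContinuousLinearEquiv 2 ℂ K K).symm.toContinuousLinearMap ∘L
    (((S ∘L ContinuousLinearMap.snd ℂ K K).prod (ContinuousLinearMap.fst ℂ K K)) ∘L
      (WithLp.prodContinuousLinearEquiv 2 ℂ K K).toContinuousLinearMap)

lemma cov_fst (S : K →L[ℂ] K) (u : WithLp 2 (K × K)) : (cov S u).fst = S u.snd := rfl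
lemma cov_snd (S : K →L[ℂ] K) (u : WithLp 2 (K × K)) : (cov S u).snd = u.fst := rfl

/-- its adjoint -/
noncomputable def cov' (S : K →L[ℂ] K) : WithLp 2 (K × K) →L[ℂ] WithLp 2 (K × K) :=
  (WithLp.prodContinuousLinearEquiv 2 ℂ K K).symm.toContinuousLinearMap ∘L
    (((ContinuousLinearMap.snd ℂ K K).prod (S ∘L ContinuousLinearMap.fst ℂ K K)) ∘L
      (WithLp.prodContinuousLinearEquiv 2 ℂ K K).toContinuousLinearMap)

lemma cov'_fst (S : K →L[ℂ] K) (u : WithLp 2 (K × K)) : (cov' S u).fst = u.snd := rfl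
lemma cov'_snd (S : K →L[ℂ] K) (u : WithLp 2 (K × K)) : (cov' S u).snd = S u.fst := rfl

lemma wext {u v : WithLp 2 (K × K)} (h1 : u.fst = v.fst) (h2 : u.snd = v.snd) : u = v := by
  rcases u with ⟨a, b⟩
  rcases v with ⟨c, d⟩
  simp at h1 h2
  subst h1; subst h2; rfl

lemma adj_cov [CompleteSpace K] (S : K →L[ℂ] K) :
    ContinuousLinearMap.adjoint (cov S) = cov' (ContinuousLinearMap.adjoint S) := by
  symm
  rw [ContinuousLinearMap.eq_adjoint_iff]
  intro u v
  rw [WithLp.prod_inner_apply, WithLp.prod_inner_apply]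
  show ⟪(cov' _ u).fst, v.fst⟫_ℂ + ⟪(cov' _ u).snd, v.snd⟫_ℂ =
    ⟪u.fst, (cov S v).fst⟫_ℂ + ⟪u.snd, (cov S v).snd⟫_ℂ
  rw [cov_fst, cov_snd, cov'_fst, cov'_snd, ContinuousLinearMap.adjoint_inner_left, add_comm]

/-- the conjugation on the cover -/
noncomputable def cc (c : K → K) (u : WithLp 2 (K × K)) : WithLp 2 (K × K) :=
  WithLp.toLp 2 (c u.snd, c u.fst)

lemma cc_fst (c : K → K) (u : WithLp 2 (K × K)) : (cc c u).fst = c u.snd := rfl
lemma cc_snd (c : K → K) (u : WithLp 2 (K × K)) : (cc c u).snd = c u.fst := rfl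

lemma cc_conj {c : K → K} (hc : IsConj c) : IsConj (cc c) := by
  obtain ⟨h1, h2, h3, h4⟩ := hc
  refine ⟨fun u => wext ?_ ?_, fun u v => wext ?_ ?_, fun a u => wext ?_ ?_, fun u v => ?_⟩
  · rw [cc_fst, cc_snd, h1]
  · rw [cc_snd, cc_fst, h1]
  · show c (u.snd + v.snd) = c u.snd + c v.snd
    exact h2 _ _
  · show c (u.fst + v.fst) = c u.fst + c v.fst
    exact h2 _ _
  · show c (a • u.snd) = _ • c u.snd
    exact h3 _ _
  · show c (a • u.fst) = _ • c u.fst
    exact h3 _ _
  · rw [WithLp.prod_inner_apply, WithLp.prod_inner_apply]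
    show ⟪c u.snd, c v.snd⟫_ℂ + ⟪c u.fst, c v.fst⟫_ℂ = ⟪v.fst, u.fst⟫_ℂ + ⟪v.snd, u.snd⟫_ℂ
    rw [h4, h4, add_comm]

lemma cov_symm [CompleteSpace K] {c : K → K} (hc : IsConj c) {S : K →L[ℂ] K} (hS : CSymm c S) :
    CSymm (cc c) (cov S) := by
  intro u
  rw [adj_cov]
  refine wext ?_ ?_
  · rw [cov_fst, cc_fst, cov'_snd, cc_fst]
    exact hS _
  · rw [cov_snd, cc_snd, cov'_fst, cc_snd, hc.1]

lemma cov_binormal [CompleteSpace K] (S : K →L[ℂ] K) : Binormal (cov S) := by
  unfold Binormal
  rw [adj_cov]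
  ext u
  refine wext ?_ ?_
  · show ((cov' _) ((cov S) ((cov S) ((cov' _) u)))).fst =
      ((cov S) ((cov' _) ((cov' _) ((cov S) u)))).fst
    simp only [cov_fst, cov_snd, cov'_fst, cov'_snd]
  · show ((cov' _) ((cov S) ((cov S) ((cov' _) u)))).snd =
      ((cov S) ((cov' _) ((cov' _) ((cov S) u)))).snd
    simp only [cov_fst, cov_snd, cov'_fst, cov'_snd]

/-- first or second coordinates -/
def prF (M : Submodule ℂ (WithLp 2 (K × K))) : Submodule ℂ K where
  carrier := {x | ∃ y, WithLp.toLp 2 (x, y) ∈ M}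
  add_mem' := by
    rintro a b ⟨y, hy⟩ ⟨z, hz⟩
    exact ⟨y + z, M.add_mem hy hz⟩
  zero_mem' := ⟨0, M.zero_mem⟩
  smul_mem' := by
    rintro a x ⟨y, hy⟩
    exact ⟨a • y, M.smul_mem a hy⟩

def prS (M : Submodule ℂ (WithLp 2 (K × K))) : Submodule ℂ K where
  carrier := {y | ∃ x, WithLp.toLp 2 (x, y) ∈ M}
  add_mem' := by
    rintro a b ⟨y, hy⟩ ⟨z, hz⟩
    exact ⟨y + z, M.add_mem hy hz⟩
  zero_mem' := ⟨0, M.zero_mem⟩
  smul_mem' := by
    rintro a x ⟨y, hy⟩
    exact ⟨a • y, M.smul_mem a hy⟩

/-- vectors `x` with `(x, 0)` or `(0, x)` in `M` -/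
def inF (M : Submodule ℂ (WithLp 2 (K × K))) : Submodule ℂ K where
  carrier := {x | WithLp.toLp 2 (x, (0 : K)) ∈ M}
  add_mem' := by
    intro a b ha hb
    have := M.add_mem ha hb
    rwa [← WithLp.toLp_add, Prod.mk_add_mk, add_zero] at this
  zero_mem' := M.zero_mem
  smul_mem' := by
    intro a x hx
    have := M.smul_mem a hx
    rwa [← WithLp.toLp_smul, Prod.smul_mk, smul_zero] at this

def inS (M : Submodule ℂ (WithLp 2 (K × K))) : Submodule ℂ K where
  carrier := {x | WithLp.toLp 2 ((0 : K), x) ∈ M}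
  add_mem' := by
    intro a b ha hb
    have := M.add_mem ha hb
    rwa [← WithLp.toLp_add, Prod.mk_add_mk, add_zero] at this
  zero_mem' := M.zero_mem
  smul_mem' := by
    intro a x hx
    have := M.smul_mem a hx
    rwa [← WithLp.toLp_smul, Prod.smul_mk, smul_zero] at this

lemma toLp_cont : Continuous (fun p : K × K => WithLp.toLp 2 p) :=
  (WithLp.prodContinuousLinearEquiv 2 ℂ K K).symm.continuous

lemma inF_closed {M : Submodule ℂ (WithLp 2 (K × K))} (hM : IsClosed (M : Set (WithLp 2 (K × K)))) :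
    IsClosed (inF M : Set K) :=
  hM.preimage (toLp_cont.comp (continuous_id.prodMk continuous_const))

lemma inS_closed {M : Submodule ℂ (WithLp 2 (K × K))} (hM : IsClosed (M : Set (WithLp 2 (K × K)))) :
    IsClosed (inS M : Set K) :=
  hM.preimage (toLp_cont.comp (continuous_const.prodMk continuous_id))

/-- without invariant subspaces closed invariant subspaces are trivial -/
lemma dich {S : K →L[ℂ] K} (h : ¬ HasInv S) (N : Submodule ℂ K) (hN : IsClosed (N : Set K))
    (hi : ∀ x ∈ N, S x ∈ N) : N = ⊥ ∨ N = ⊤ := by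
  by_contra hcon
  rw [not_or] at hcon
  exact h ⟨N, hN, hcon.1, hcon.2, hi⟩

lemma dich' {S : K →L[ℂ] K} (h : ¬ HasInv S) (N : Submodule ℂ K)
    (hi : ∀ x ∈ N, S x ∈ N) : N = ⊥ ∨ Dense (N : Set K) := by
  have hc : ∀ x ∈ N.topologicalClosure, S x ∈ N.topologicalClosure := by
    intro x hx
    have : x ∈ closure (N : Set K) := hx
    show S x ∈ closure (N : Set K)
    exact map_mem_closure S.continuous this hi
  rcases dich h N.topologicalClosure N.isClosed_topologicalClosure hc with h1 | h1
  · left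
    rw [eq_bot_iff, ← h1]
    exact N.le_topologicalClosure
  · right
    rw [dense_iff_closure_eq, ← Submodule.topologicalClosure_coe, h1, Submodule.top_coe]

/-- Let `c` be a conjugation of an infinite-dimensional Hilbert space `K` and `S = c S* c` any complex
symmetric operator on `K`. Then `T (x, y) = (S y, x)` on `K ⊕ K` is complex symmetric and binormal, and
`T` has a nontrivial closed invariant subspace if and only if `S` has one or `S` has a closed inverse
square root. -/
theorem result {K : Type*} [NormedAddCommGroup K] [InnerProductSpace ℂ K] [CompleteSpace K]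
    (hK : ¬ FiniteDimensional ℂ K) (c : K → K) (hc : IsConj c) (S : K →L[ℂ] K) (hS : CSymm c S) :
    ∃ (T : WithLp 2 (K × K) →L[ℂ] WithLp 2 (K × K)) (C : WithLp 2 (K × K) → WithLp 2 (K × K)),
      (∀ x y : K, T (WithLp.toLp 2 (x, y)) = WithLp.toLp 2 (S y, x)) ∧
      IsConj C ∧ CSymm C T ∧ Binormal T ∧ (HasInv T ↔ HasInv S ∨ HasClosedRoot S) := by
  have hnt : ∃ z : K, z ≠ 0 := by
    by_contra h
    push Not at h
    apply hK
    haveI : Subsingleton K := ⟨fun a b => by rw [h a, h b]⟩
    infer_instance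
  obtain ⟨z, hz⟩ := hnt
  refine ⟨cov S, cc c, fun x y => rfl, cc_conj hc, cov_symm hc hS, cov_binormal S, ?_, ?_⟩
  · rintro ⟨M, hM, hb, ht, hi⟩
    by_contra hcon
    rw [not_or] at hcon
    obtain ⟨hn, hr⟩ := hcon
    have hT : ∀ x y : K, WithLp.toLp 2 (x, y) ∈ M → WithLp.toLp 2 (S y, x) ∈ M := fun x y h => hi _ h
    -- `S` is not zero
    have hS0 : ∃ x, S x ≠ 0 := by
      by_contra h0
      push Not at h0
      apply hn
      refine ⟨Submodule.span ℂ {z}, Submodule.closed_of_finiteDimensional _, ?_, ?_, ?_⟩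
      · intro h
        exact hz (Submodule.span_singleton_eq_bot.1 h)
      · intro h
        apply hK
        exact FiniteDimensional.of_finrank_pos (by
          have := finrank_span_singleton (K := ℂ) hz
          rw [h, finrank_top] at this
          omega)
      · intro x _
        rw [h0]; exact Submodule.zero_mem _
    have k1 : ∀ x ∈ inF M, S x ∈ inF M := by
      intro x hx
      have h2 := hT _ _ (hT _ _ hx)
      rw [map_zero] at h2
      exact h2
    have k2 : ∀ x ∈ inS M, S x ∈ inS M := by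
      intro x hx
      have h2 := hT _ _ (hT _ _ hx)
      rw [map_zero] at h2
      exact h2
    have h1 : inF M = ⊥ := by
      rcases dich hn (inF M) (inF_closed hM) k1 with h | h
      · exact h
      · exfalso
        apply ht
        rw [eq_top_iff]
        rintro ⟨x, y⟩ _
        have hx : WithLp.toLp 2 (x, (0 : K)) ∈ M := by
          have : x ∈ inF M := by rw [h]; trivial
          exact this
        have hy : WithLp.toLp 2 (y, (0 : K)) ∈ M := by
          have : y ∈ inF M := by rw [h]; trivial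
          exact this
        have hy' := hT _ _ hy
        rw [map_zero] at hy'
        have := M.add_mem hx hy'
        rwa [← WithLp.toLp_add, Prod.mk_add_mk, add_zero, zero_add] at this
    have h2 : inS M = ⊥ := by
      rcases dich hn (inS M) (inS_closed hM) k2 with h | h
      · exact h
      · exfalso
        obtain ⟨x, hx⟩ := hS0
        have h3 : x ∈ inS M := by rw [h]; trivial
        have h4 : S x ∈ inF M := hT _ _ h3
        rw [h1] at h4
        exact hx h4
    have h3 : prF M ≠ ⊥ := by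
      intro h
      apply hb
      rw [eq_bot_iff]
      rintro ⟨x, y⟩ hxy
      have hx : x ∈ prF M := ⟨y, hxy⟩
      rw [h] at hx
      have hx0 : x = 0 := hx
      subst hx0
      have hy : y ∈ inS M := hxy
      rw [h2] at hy
      have hy0 : y = 0 := hy
      subst hy0
      exact Submodule.zero_mem _
    have h4 : prS M ≠ ⊥ := by
      intro h
      apply hb
      rw [eq_bot_iff]
      rintro ⟨x, y⟩ hxy
      have hx : y ∈ prS M := ⟨x, hxy⟩
      rw [h] at hx
      have hx0 : y = 0 := hx
      subst hx0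
      have hy : x ∈ inF M := hxy
      rw [h1] at hy
      have hy0 : x = 0 := hy
      subst hy0
      exact Submodule.zero_mem _
    apply hr
    refine ⟨M.comap (WithLp.prodContinuousLinearEquiv 2 ℂ K K).symm.toLinearMap,
      hM.preimage toLp_cont, ?_, ?_, ?_, ?_, ?_⟩
    · intro y hy
      have : y ∈ inS M := hy
      rw [h2] at this
      exact this
    · intro x hx
      have : x ∈ inF M := hx
      rw [h1] at this
      exact this
    · exact (dich' hn (prF M) (by
        rintro x ⟨y, hy⟩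
        exact ⟨S y, hT _ _ (hT _ _ hy)⟩)).resolve_left h3
    · exact (dich' hn (prS M) (by
        rintro y ⟨x, hx⟩
        exact ⟨S x, hT _ _ (hT _ _ hx)⟩)).resolve_left h4
    · intro x y hxy
      exact hT x y hxy
  · rintro (⟨N, hN, hb, ht, hi⟩ | ⟨G, hG, g1, g2, g3, g4, g5⟩)
    · refine ⟨(N.prod N).comap (WithLp.prodContinuousLinearEquiv 2 ℂ K K).toLinearMap,
        (hN.prod hN).preimage (WithLp.prodContinuousLinearEquiv 2 ℂ K K).continuous, ?_, ?_, ?_⟩
      · intro h
        obtain ⟨x, hx, hx0⟩ := N.ne_bot_iff.1 hb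
        have h5 : WithLp.toLp 2 (x, x) ∈
            (N.prod N).comap (WithLp.prodContinuousLinearEquiv 2 ℂ K K).toLinearMap :=
          ⟨hx, hx⟩
        rw [h] at h5
        have h6 : WithLp.toLp 2 (x, x) = 0 := h5
        exact hx0 (congrArg WithLp.fst h6)
      · intro h
        apply ht
        rw [eq_top_iff]
        intro x _
        have h5 : WithLp.toLp 2 (x, x) ∈
            (N.prod N).comap (WithLp.prodContinuousLinearEquiv 2 ℂ K K).toLinearMap := by
          rw [h]; trivial
        exact h5.1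
      · intro u hu
        exact ⟨hi _ hu.2, hu.1⟩
    · refine ⟨G.comap (WithLp.prodContinuousLinearEquiv 2 ℂ K K).toLinearMap,
        hG.preimage (WithLp.prodContinuousLinearEquiv 2 ℂ K K).continuous, ?_, ?_, ?_⟩
      · intro h
        have h5 : ∀ x y, (x, y) ∈ G → x = 0 := by
          intro x y hxy
          have h6 : WithLp.toLp 2 (x, y) ∈
            G.comap (WithLp.prodContinuousLinearEquiv 2 ℂ K K).toLinearMap := hxy
          rw [h] at h6
          have h7 : WithLp.toLp 2 (x, y) = 0 := h6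
          exact congrArg WithLp.fst h7
        have h8 : {x : K | ∃ y, (x, y) ∈ G} ⊆ {0} := by
          rintro x ⟨y, hy⟩
          exact h5 x y hy
        have h9 := g3.mono h8
        have h10 : closure ({0} : Set K) = Set.univ := h9.closure_eq
        rw [closure_singleton] at h10
        have : z ∈ ({0} : Set K) := by rw [h10]; trivial
        exact hz this
      · intro h
        have h5 : WithLp.toLp 2 ((0 : K), z) ∈
            G.comap (WithLp.prodContinuousLinearEquiv 2 ℂ K K).toLinearMap := by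
          rw [h]; trivial
        exact hz (g1 z h5)
      · intro u hu
        exact g5 _ _ hu

end proofs

end Pool.Agent.Results.MP_5a4e18_an.BinormalCover
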