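import Mathlib

/-!
Binormal complex symmetric operators `T` for which the eigenvalues of `T* T` have finite multiplicity.
-/

set_option autoImplicit false
open scoped InnerProductSpace

namespace Pool.Agent.Results.MP_5a4e18_an.FiniteMultiplicity

open Module.End

variable {H : Type*} [NormedAddCommGroup H] [InnerProductSpace ℂ H] [CompleteSpace H]

/-- `T* T` -/
private noncomputable def A (T : H →L[ℂ] H) : H →ₗ[ℂ] H := ((ContinuousLinearMap.adjoint T * T : H →L[ℂ] H) : H →ₗ[ℂ] H)

/-- `T T*` -/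
private noncomputable def B (T : H →L[ℂ] H) : H →ₗ[ℂ] H := ((T * ContinuousLinearMap.adjoint T : H →L[ℂ] H) : H →ₗ[ℂ] H)

private lemma A_apply (T : H →L[ℂ] H) (x : H) : A T x = ContinuousLinearMap.adjoint T (T x) := rfl
private lemma B_apply (T : H →L[ℂ] H) (x : H) : B T x = T (ContinuousLinearMap.adjoint T x) := rfl

private lemma A_symm (T : H →L[ℂ] H) : (A T).IsSymmetric := by
  intro x y
  rw [A_apply, A_apply, ContinuousLinearMap.adjoint_inner_left, ContinuousLinearMap.adjoint_inner_right]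

private lemma B_symm (T : H →L[ℂ] H) : (B T).IsSymmetric := by
  intro x y
  rw [B_apply, B_apply, ← ContinuousLinearMap.adjoint_inner_right, ContinuousLinearMap.adjoint_inner_left]

private lemma real_of_eig {S : H →ₗ[ℂ] H} (hS : S.IsSymmetric) {μ : ℂ} {x : H} (hx : x ≠ 0)
    (h : S x = μ • x) : (starRingEnd ℂ) μ = μ :=
  hS.conj_eigenvalue_eq_self (hasEigenvalue_of_hasEigenvector ⟨mem_eigenspace_iff.2 h, hx⟩)

/-- a finite-dimensional invariant subspace of a symmetric operator is spanned by eigenvectors -/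
private lemma decomp {S : H →ₗ[ℂ] H} (hS : S.IsSymmetric) (W : Submodule ℂ H) [FiniteDimensional ℂ W]
    (hW : ∀ x ∈ W, S x ∈ W) : W ≤ ⨆ μ, W ⊓ eigenspace S μ := by
  have hS' := hS.restrict_invariant hW
  have h1 := hS'.orthogonalComplement_iSup_eigenspaces_eq_bot
  rw [Submodule.orthogonal_eq_bot_iff] at h1
  have h2 : Submodule.map W.subtype (⨆ μ, eigenspace (S.restrict hW) μ) = W := by
    rw [h1, Submodule.map_top, Submodule.range_subtype]
  rw [Submodule.map_iSup] at h2
  conv_lhs => rw [← h2]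
  refine iSup_mono (fun μ => ?_)
  rintro x ⟨y, hy, rfl⟩
  refine ⟨y.2, ?_⟩
  rw [SetLike.mem_coe, mem_eigenspace_iff] at hy
  rw [SetLike.mem_coe, mem_eigenspace_iff]
  have h3 := congrArg Subtype.val hy
  simpa using h3

section
variable (T : H →L[ℂ] H) (C : H → H)

private lemma T_map {μ : ℂ} {x : H} (hx : x ∈ eigenspace (A T) μ) : T x ∈ eigenspace (B T) μ := by
  rw [mem_eigenspace_iff] at hx ⊢
  rw [B_apply]
  rw [A_apply] at hx
  rw [hx, map_smul]

private lemma Ts_map {μ : ℂ} {x : H} (hx : x ∈ eigenspace (B T) μ) :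
    ContinuousLinearMap.adjoint T x ∈ eigenspace (A T) μ := by
  rw [mem_eigenspace_iff] at hx ⊢
  rw [A_apply]
  rw [B_apply] at hx
  rw [hx, map_smul]

variable (hC1 : ∀ x, C (C x) = x) (hC2 : ∀ x y, C (x + y) = C x + C y)
    (hC3 : ∀ (a : ℂ) x, C (a • x) = (starRingEnd ℂ a) • C x)
    (hT : ∀ x, T x = C (ContinuousLinearMap.adjoint T (C x)))

include hC1 hT

private lemma CT (x : H) : C (T x) = ContinuousLinearMap.adjoint T (C x) := by
  rw [hT x, hC1]

private lemma CTs (x : H) : C (ContinuousLinearMap.adjoint T x) = T (C x) := by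
  rw [hT (C x), hC1]

private lemma CA (x : H) : C (A T x) = B T (C x) := by
  rw [A_apply, B_apply, CTs T C hC1 hT, CT T C hC1 hT]

private lemma CB (x : H) : C (B T x) = A T (C x) := by
  rw [A_apply, B_apply, CT T C hC1 hT, CTs T C hC1 hT]

include hC2 hC3

private lemma fd_B (hfin : ∀ μ : ℂ, FiniteDimensional ℂ (eigenspace (A T) μ)) (μ : ℂ) :
    FiniteDimensional ℂ (eigenspace (B T) μ) := by
  have h0 : C 0 = 0 := by
    have := hC3 0 0
    simpa using this
  have hfg : (eigenspace (A T) ((starRingEnd ℂ) μ)).FG :=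
    (Submodule.fg_iff_finiteDimensional _).2 (hfin _)
  obtain ⟨s, hs⟩ := hfg
  have hspan : ∀ z ∈ Submodule.span ℂ (s : Set H), C z ∈ Submodule.span ℂ (C '' (s : Set H)) := by
    intro z hz
    induction hz using Submodule.span_induction with
    | mem x hx => exact Submodule.subset_span ⟨x, hx, rfl⟩
    | zero => rw [h0]; exact Submodule.zero_mem _
    | add x y _ _ hx hy => rw [hC2]; exact Submodule.add_mem _ hx hy
    | smul a x _ hx => rw [hC3]; exact Submodule.smul_mem _ _ hx
  have hle : eigenspace (B T) μ ≤ Submodule.span ℂ (C '' (s : Set H)) := by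
    intro y hy
    have h1 : C y ∈ Submodule.span ℂ (s : Set H) := by
      rw [hs, mem_eigenspace_iff, ← CB T C hC1 hT, mem_eigenspace_iff.1 hy, hC3]
    have h2 := hspan _ h1
    rwa [hC1] at h2
  have : FiniteDimensional ℂ (Submodule.span ℂ (C '' (s : Set H))) :=
    FiniteDimensional.span_of_finite ℂ (s.finite_toSet.image C)
  exact Submodule.finiteDimensional_of_le hle

/-- adjacency of eigenvalues -/
private def R (T : H →L[ℂ] H) (l μ : ℂ) : Prop := ∃ x : H, x ≠ 0 ∧ A T x = l • x ∧ B T x = μ • x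

private lemma R_symm {l μ : ℂ} (h : R T l μ) : R T μ l := by
  have h0 : C 0 = 0 := by
    have := hC3 0 0
    simpa using this
  obtain ⟨x, hx, h1, h2⟩ := h
  refine ⟨C x, ?_, ?_, ?_⟩
  · intro h
    apply hx
    rw [← hC1 x, h, h0]
  · rw [← CB T C hC1 hT, h2, hC3, real_of_eig (B_symm T) hx h2]
  · rw [← CA T C hC1 hT, h1, hC3, real_of_eig (A_symm T) hx h1]

end

/-- Let `C` be a conjugation on the Hilbert space `H`, `T = C T* C` and let `T* T` and `T T*` commute.
Suppose that every eigenvalue of `T* T` has finite multiplicity.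
(a) The closed span of the eigenvectors of `T* T` is invariant under `T` and `T*`.
(b) If `T* T` has an eigenvalue and all but finitely many of its eigenvalues are simple, then there is a
nonzero finite-dimensional subspace invariant under `T` and `T*`. -/
private theorem core (T : H →L[ℂ] H)
    (hbin : (ContinuousLinearMap.adjoint T * T) * (T * ContinuousLinearMap.adjoint T) =
      (T * ContinuousLinearMap.adjoint T) * (ContinuousLinearMap.adjoint T * T))
    (C : H → H)
    (hC1 : ∀ x, C (C x) = x) (hC2 : ∀ x y, C (x + y) = C x + C y)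
    (hC3 : ∀ (a : ℂ) x, C (a • x) = (starRingEnd ℂ a) • C x)
    (hT : ∀ x, T x = C (ContinuousLinearMap.adjoint T (C x)))
    (hfin : ∀ μ : ℂ, FiniteDimensional ℂ (eigenspace (A T) μ)) :
    (∀ x ∈ (⨆ μ : ℂ, eigenspace (A T) μ).topologicalClosure,
      T x ∈ (⨆ μ : ℂ, eigenspace (A T) μ).topologicalClosure ∧
      ContinuousLinearMap.adjoint T x ∈ (⨆ μ : ℂ, eigenspace (A T) μ).topologicalClosure) ∧
    ({μ : ℂ | 1 < Module.finrank ℂ (eigenspace (A T) μ)}.Finite →
      (∃ μ : ℂ, eigenspace (A T) μ ≠ ⊥) →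
      ∃ K : Submodule ℂ H, FiniteDimensional ℂ K ∧ K ≠ ⊥ ∧ (∀ x ∈ K, T x ∈ K) ∧
        ∀ x ∈ K, ContinuousLinearMap.adjoint T x ∈ K) := by
  have hAB : ∀ x, A T (B T x) = B T (A T x) := fun x => by
    have := congrArg (fun S : H →L[ℂ] H => S x) hbin
    exact this
  have hfinB := fd_B T C hC1 hC2 hC3 hT hfin
  have dA : ∀ l : ℂ, eigenspace (A T) l ≤ ⨆ μ, eigenspace (A T) l ⊓ eigenspace (B T) μ := by
    intro l
    have := hfin l
    apply decomp (B_symm T)
    intro x hx
    rw [mem_eigenspace_iff] at hx ⊢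
    rw [hAB, hx, map_smul]
  have dB : ∀ l : ℂ, eigenspace (B T) l ≤ ⨆ μ, eigenspace (B T) l ⊓ eigenspace (A T) μ := by
    intro l
    have := hfinB l
    apply decomp (A_symm T)
    intro x hx
    rw [mem_eigenspace_iff] at hx ⊢
    rw [← hAB, hx, map_smul]
  refine ⟨?_, ?_⟩
  · have hT1 : ∀ x ∈ ⨆ μ : ℂ, eigenspace (A T) μ, T x ∈ ⨆ μ : ℂ, eigenspace (A T) μ := by
      have h : (⨆ μ : ℂ, eigenspace (A T) μ) ≤
          Submodule.comap (T : H →ₗ[ℂ] H) (⨆ μ : ℂ, eigenspace (A T) μ) := by
        refine iSup_le (fun l x hx => ?_)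
        have h1 := dB l (T_map T hx)
        have h2 : (⨆ μ, eigenspace (B T) l ⊓ eigenspace (A T) μ) ≤ ⨆ μ : ℂ, eigenspace (A T) μ :=
          iSup_mono (fun μ => inf_le_right)
        exact h2 h1
      exact fun x hx => h hx
    have hT2 : ∀ x ∈ ⨆ μ : ℂ, eigenspace (A T) μ,
        ContinuousLinearMap.adjoint T x ∈ ⨆ μ : ℂ, eigenspace (A T) μ := by
      have h : (⨆ μ : ℂ, eigenspace (A T) μ) ≤
          Submodule.comap ((ContinuousLinearMap.adjoint T : H →L[ℂ] H) : H →ₗ[ℂ] H)
            (⨆ μ : ℂ, eigenspace (A T) μ) := by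
        refine iSup_le (fun l => (dA l).trans (iSup_le (fun μ x hx => ?_)))
        exact (le_iSup (fun μ => eigenspace (A T) μ) μ) (Ts_map T hx.2)
      exact fun x hx => h hx
    intro x hx
    constructor
    · exact map_mem_closure T.continuous hx hT1
    · exact map_mem_closure (ContinuousLinearMap.adjoint T).continuous hx hT2
  · intro hE hne
    obtain ⟨l0, hl0⟩ := hne
    have hRs : ∀ {l μ : ℂ}, R T l μ → R T μ l := fun h => R_symm T C hC1 hC2 hC3 hT h
    have hRiff : ∀ l μ : ℂ, eigenspace (A T) l ⊓ eigenspace (B T) μ ≠ ⊥ → R T l μ := by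
      intro l μ h
      obtain ⟨x, hx, hx0⟩ := Submodule.exists_mem_ne_zero_of_ne_bot h
      exact ⟨x, hx0, mem_eigenspace_iff.1 hx.1, mem_eigenspace_iff.1 hx.2⟩
    -- finitely many neighbours
    have hnb : ∀ l : ℂ, {μ : ℂ | R T l μ}.Finite := by
      intro l
      have := hfin l
      have hinv : ∀ x ∈ eigenspace (A T) l, B T x ∈ eigenspace (A T) l := by
        intro x hx
        rw [mem_eigenspace_iff] at hx ⊢
        rw [hAB, hx, map_smul]
      refine (finite_hasEigenvalue ((B T).restrict hinv)).subset ?_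
      rintro μ ⟨x, hx0, h1, h2⟩
      refine hasEigenvalue_of_hasEigenvector (x := ⟨x, mem_eigenspace_iff.2 h1⟩) ⟨?_, ?_⟩
      · rw [mem_eigenspace_iff]
        apply Subtype.ext
        simpa using h2
      · intro h
        exact hx0 (congrArg Subtype.val h)
    -- a simple eigenvalue has one neighbour
    have hone : ∀ l : ℂ, ¬ 1 < Module.finrank ℂ (eigenspace (A T) l) → ∀ μ μ' : ℂ, R T l μ → R T l μ' →
        μ = μ' := by
      rintro l hl μ μ' ⟨x, hx0, h1, h2⟩ ⟨y, hy0, h3, h4⟩
      have := hfin l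
      have hle : Module.finrank ℂ (eigenspace (A T) l) ≤ 1 := by omega
      obtain ⟨v, hv⟩ := finrank_le_one_iff.1 hle
      obtain ⟨a, ha⟩ := hv ⟨x, mem_eigenspace_iff.2 h1⟩
      obtain ⟨b, hb⟩ := hv ⟨y, mem_eigenspace_iff.2 h3⟩
      have ha' : a • (v : H) = x := congrArg Subtype.val ha
      have hb' : b • (v : H) = y := congrArg Subtype.val hb
      have ha0 : a ≠ 0 := by
        rintro rfl
        apply hx0
        rw [← ha', zero_smul]
      have hyx : y = (b / a) • x := by
        rw [← ha', ← hb', smul_smul, div_mul_cancel₀ _ ha0]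
      rw [hyx, map_smul, h2, smul_smul, smul_smul] at h4
      have hb0 : b / a ≠ 0 := by
        intro h
        apply hy0
        rw [hyx, h, zero_smul]
      have h5 : (b / a * μ - μ' * (b / a)) • x = 0 := by
        rw [sub_smul, h4, sub_self]
      rcases smul_eq_zero.1 h5 with h6 | h6
      · have h7 : b / a * (μ - μ') = 0 := by
          rw [← h6]
          ring
        rcases mul_eq_zero.1 h7 with h8 | h8
        · exact absurd h8 hb0
        · exact sub_eq_zero.1 h8
      · exact absurd h6 hx0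
    set F : Set ℂ := {μ : ℂ | 1 < Module.finrank ℂ (eigenspace (A T) μ)} ∪ {l0} with hF
    have hFfin : F.Finite := hE.union (Set.finite_singleton l0)
    set S : Set ℂ := F ∪ ⋃ f ∈ F, {μ : ℂ | R T f μ} with hSdef
    have hSfin : S.Finite := hFfin.union (hFfin.biUnion (fun f _ => hnb f))
    have hclosed : ∀ l ∈ S, ∀ μ : ℂ, R T l μ → μ ∈ S := by
      intro l hl μ hR
      by_cases hlF : l ∈ F
      · exact Or.inr (Set.mem_biUnion hlF hR)
      · rcases hl with hl | hl
        · exact absurd hl hlF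
        · rw [Set.mem_iUnion₂] at hl
          obtain ⟨f, hf, hR2⟩ := hl
          have hlE : ¬ 1 < Module.finrank ℂ (eigenspace (A T) l) := fun h => hlF (Or.inl h)
          have := hone l hlE μ f hR (hRs hR2)
          rw [this]
          exact Or.inl hf
    have hl0S : l0 ∈ S := Or.inl (Or.inr rfl)
    let K : Submodule ℂ H := hSfin.toFinset.sup (fun l => eigenspace (A T) l)
    have hKle : ∀ l ∈ S, eigenspace (A T) l ≤ K := fun l hl =>
      Finset.le_sup (f := fun l => eigenspace (A T) l) (hSfin.mem_toFinset.2 hl)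
    refine ⟨K, ?_, ?_, ?_, ?_⟩
    · exact Submodule.finiteDimensional_finset_sup _ _
    · intro h
      apply hl0
      rw [eq_bot_iff, ← h]
      exact hKle l0 hl0S
    · have h : K ≤ Submodule.comap (T : H →ₗ[ℂ] H) K := by
        refine Finset.sup_le (fun l hl x hx => ?_)
        rw [hSfin.mem_toFinset] at hl
        have h1 := dB l (T_map T hx)
        have h2 : (⨆ μ, eigenspace (B T) l ⊓ eigenspace (A T) μ) ≤ K := by
          refine iSup_le (fun μ => ?_)
          by_cases hb : eigenspace (B T) l ⊓ eigenspace (A T) μ = ⊥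
          · rw [hb]
            exact bot_le
          · rw [inf_comm] at hb
            have h3 := hclosed l hl μ (hRs (hRiff μ l hb))
            exact inf_le_right.trans (hKle μ h3)
        exact h2 h1
      exact fun x hx => h hx
    · have h : K ≤ Submodule.comap ((ContinuousLinearMap.adjoint T : H →L[ℂ] H) : H →ₗ[ℂ] H) K := by
        refine Finset.sup_le (fun l hl => (dA l).trans (iSup_le (fun μ x hx => ?_)))
        rw [hSfin.mem_toFinset] at hl
        by_cases hb : eigenspace (A T) l ⊓ eigenspace (B T) μ = ⊥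
        · rw [hb, Submodule.mem_bot] at hx
          rw [hx]
          exact Submodule.zero_mem _
        · exact hKle μ (hclosed l hl μ (hRiff l μ hb)) (Ts_map T hx.2)
      exact fun x hx => h hx

/-- Let `H` be an infinite-dimensional complex Hilbert space, `C` a conjugation on `H`, `T = C T* C`, and
let `T* T` and `T T*` commute. Suppose that `T* T` has an eigenvalue, that all its eigenvalues have finite
multiplicity, and that the eigenvectors of `T* T` do not span a dense subspace or at most finitely many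
eigenvalues of `T* T` have multiplicity greater than one. Then some closed subspace different from `0` and
`H` is invariant under `T` and `T*`. -/
theorem result {H : Type*} [NormedAddCommGroup H] [InnerProductSpace ℂ H] [CompleteSpace H]
    (hH : ¬ FiniteDimensional ℂ H) (T : H →L[ℂ] H)
    (hbin : (ContinuousLinearMap.adjoint T * T) * (T * ContinuousLinearMap.adjoint T) =
      (T * ContinuousLinearMap.adjoint T) * (ContinuousLinearMap.adjoint T * T))
    (C : H → H)
    (hC1 : ∀ x, C (C x) = x) (hC2 : ∀ x y, C (x + y) = C x + C y)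
    (hC3 : ∀ (a : ℂ) x, C (a • x) = (starRingEnd ℂ a) • C x)
    (_hC4 : ∀ x y, ⟪C x, C y⟫_ℂ = ⟪y, x⟫_ℂ)
    (hT : ∀ x, T x = C (ContinuousLinearMap.adjoint T (C x)))
    (hne : ∃ m : ℂ,
      eigenspace ((ContinuousLinearMap.adjoint T * T : H →L[ℂ] H) : H →ₗ[ℂ] H) m ≠ ⊥)
    (hfin : ∀ m : ℂ, FiniteDimensional ℂ
      (eigenspace ((ContinuousLinearMap.adjoint T * T : H →L[ℂ] H) : H →ₗ[ℂ] H) m))
    (h : (⨆ m : ℂ, eigenspace ((ContinuousLinearMap.adjoint T * T : H →L[ℂ] H) : H →ₗ[ℂ] H)
          m).topologicalClosure ≠ ⊤ ∨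
      {m : ℂ | 1 < Module.finrank ℂ
        (eigenspace ((ContinuousLinearMap.adjoint T * T : H →L[ℂ] H) : H →ₗ[ℂ] H) m)}.Finite) :
    ∃ M : Submodule ℂ H, IsClosed (M : Set H) ∧ M ≠ ⊥ ∧ M ≠ ⊤ ∧ (∀ x ∈ M, T x ∈ M) ∧
      ∀ x ∈ M, ContinuousLinearMap.adjoint T x ∈ M := by
  obtain ⟨h1, h2⟩ := core T hbin C hC1 hC2 hC3 hT hfin
  rcases h with h | h
  · refine ⟨_, Submodule.isClosed_topologicalClosure _, ?_, h, fun x hx => (h1 x hx).1,
      fun x hx => (h1 x hx).2⟩
    intro h0
    obtain ⟨m, hm⟩ := hne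
    apply hm
    rw [eq_bot_iff, ← h0]
    exact (le_iSup (fun m => eigenspace (A T) m) m).trans (Submodule.le_topologicalClosure _)
  · obtain ⟨K, hK1, hK2, hK3, hK4⟩ := h2 h hne
    refine ⟨K, K.closed_of_finiteDimensional, hK2, ?_, hK3, hK4⟩
    rintro rfl
    exact hH (LinearEquiv.finiteDimensional (Submodule.topEquiv (R := ℂ) (M := H)))

end Pool.Agent.Results.MP_5a4e18_an.FiniteMultiplicity
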