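import Pool.Agent.LibCS52.Red

/-!
Structure of the irreducible complex symmetric operators: the von Neumann algebras generated by
`T* T` and by `T T*` are in general position.
-/

set_option autoImplicit false
open scoped InnerProductSpace

namespace Pool.Agent.Results.MP_5a4e18_an.Irreducible

open Pool.Agent.LibCS52

section definitions

variable {H : Type*} [NormedAddCommGroup H] [InnerProductSpace ℂ H] [CompleteSpace H]

/-- `Y` belongs to the double commutant of `A` -/
def InVN (A Y : H →L[ℂ] H) : Prop := ∀ B : H →L[ℂ] H, B * A = A * B → B * Y = Y * B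

/-- the closed subspaces invariant under `T` and `T*` are `0` and `H` only -/
def IsIrreducible (T : H →L[ℂ] H) : Prop :=
  ∀ M : Submodule ℂ H, IsClosed (M : Set H) → (∀ x ∈ M, T x ∈ M) →
    (∀ x ∈ M, ContinuousLinearMap.adjoint T x ∈ M) → M = ⊥ ∨ M = ⊤

end definitions

/-- Let `C` be a conjugation on a Hilbert space and `T = C T* C`. Write `N₁` and `N₂` for the double
commutants of `T* T` and `T T*`.
(a) If `T T*` belongs to `N₁` then `T²` is normal, and if `H` is infinite-dimensional then `T` has a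
reducing subspace.
(b) If `T` is irreducible then `N₁ ∩ N₂` consists of the scalars, or it is `ℂ 1 + ℂ P` for a
projection `P` different from `0` and `1` with `C P C = 1 - P` and `T P = (1 - P) T`; in the second
case every closed `T²`-invariant subspace of the range of `P`, except `0` and the range of `P`,
yields a nontrivial closed invariant subspace of `T`. -/
theorem result {H : Type*} [NormedAddCommGroup H] [InnerProductSpace ℂ H] [CompleteSpace H]
    (T : H →L[ℂ] H) (C : H → H)
    (hC1 : ∀ x, C (C x) = x) (hC2 : ∀ x y, C (x + y) = C x + C y)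
    (hC3 : ∀ (a : ℂ) x, C (a • x) = (starRingEnd ℂ a) • C x)
    (hC4 : ∀ x y, ⟪C x, C y⟫_ℂ = ⟪y, x⟫_ℂ)
    (hT : ∀ x, T x = C (ContinuousLinearMap.adjoint T (C x))) :
    (InVN (ContinuousLinearMap.adjoint T * T) (T * ContinuousLinearMap.adjoint T) →
      ContinuousLinearMap.adjoint (T * T) * (T * T) =
        (T * T) * ContinuousLinearMap.adjoint (T * T) ∧
      (¬ FiniteDimensional ℂ H → ¬ IsIrreducible T)) ∧
    (IsIrreducible T →
      (∀ Y, InVN (ContinuousLinearMap.adjoint T * T) Y →
        InVN (T * ContinuousLinearMap.adjoint T) Y → ∃ c : ℂ, Y = c • (1 : H →L[ℂ] H)) ∨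
      ∃ P : H →L[ℂ] H, ContinuousLinearMap.adjoint P = P ∧ P * P = P ∧ P ≠ 0 ∧ P ≠ 1 ∧
        (∀ Y, (InVN (ContinuousLinearMap.adjoint T * T) Y ∧
            InVN (T * ContinuousLinearMap.adjoint T) Y) ↔
          ∃ a b : ℂ, Y = a • (1 : H →L[ℂ] H) + b • P) ∧
        (∀ x, C (P (C x)) = x - P x) ∧ T * P = (1 - P) * T ∧
        ∀ M : Submodule ℂ H, IsClosed (M : Set H) → M ≠ ⊥ → (∀ x ∈ M, P x = x) →
          (∃ y, P y = y ∧ y ∉ M) → (∀ x ∈ M, T (T x) ∈ M) →
          ∃ K : Submodule ℂ H, IsClosed (K : Set H) ∧ K ≠ ⊥ ∧ K ≠ ⊤ ∧ ∀ x ∈ K, T x ∈ K) := by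
  have hC : IsConjugation C := ⟨hC1, hC2, hC3, hC4⟩
  have hS : CSym C T := hT
  have hR' : IsIrreducible T → ¬ HasRed T := by
    rintro hirr ⟨M, h1, h2, h3, h4, h5⟩
    rcases hirr M h1 h4 h5 with h | h
    · exact h2 h
    · exact h3 h
  have hdd : ∀ Y, (InVN (ContinuousLinearMap.adjoint T * T) Y ∧
      InVN (T * ContinuousLinearMap.adjoint T) Y) ↔ Y ∈ dd T := fun Y => by
    unfold InVN dd
    rw [Set.mem_inter_iff, mem_dc, mem_dc]
    rfl
  refine ⟨?_, ?_⟩
  · intro h
    have hN : IsStarNormal (T * T) := sq_normal hC hS (mem_dc.2 h)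
    exact ⟨hN.star_comm_self, fun hH hirr => hR' hirr (hasRed_of_sq_normal hH hN)⟩
  · intro hirr
    have hR := hR' hirr
    by_cases hall : ∀ Y, InVN (ContinuousLinearMap.adjoint T * T) Y →
        InVN (T * ContinuousLinearMap.adjoint T) Y → ∃ c : ℂ, Y = c • (1 : H →L[ℂ] H)
    · exact Or.inl hall
    · right
      push Not at hall
      obtain ⟨Y, hY1, hY2, hns⟩ := hall
      obtain ⟨P, h1, h2, h3, h4, h5, h6, h7⟩ := exists_proj hC hS hR ((hdd Y).1 ⟨hY1, hY2⟩)
        (by rintro ⟨c, hc⟩; exact hns c hc)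
      have hsa : ContinuousLinearMap.adjoint P = P := h1
      refine ⟨P, hsa, h2, ?_, ?_, ?_, ?_, h7, ?_⟩
      · intro h
        exact h4 ⟨0, by rw [h, zero_smul]⟩
      · intro h
        exact h4 ⟨1, by rw [h, one_smul]⟩
      · intro Y'
        rw [hdd]
        constructor
        · intro h
          exact h5 Y' h
        · rintro ⟨a, b, rfl⟩
          exact dd_add (dd_smul a dd_one) (dd_smul b h3)
      · intro x
        have h8 := congrArg (fun B : H →L[ℂ] H => B x) h6
        have h9 : C (ContinuousLinearMap.adjoint P (C x)) = x - P x := h8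
        rw [hsa] at h9
        exact h9
      · intro M hcl h0 hM hex hinv
        exact hasInv_of_sq h2 h7 M hcl h0 hM hex hinv

end Pool.Agent.Results.MP_5a4e18_an.Irreducible
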